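import Pool.Agent.H38.SP.S8.Y940.CT.Cont
import Pool.Agent.H38.SP.S8.Y940.RS.Core
/-!
# The hypergraph of `k` pairs with the same sum
-/

set_option autoImplicit false

open Finset

namespace Pool.Agent.Y940.CT

open Pool.Agent.Y940.RS (pairs mem_pairs sum_pairs_ge)

/-- the union of the pairs `{a, σ - a}`, `a ∈ Q` -/
def vx (σ : ℕ) (Q : Finset ℕ) : Finset ℕ := Q ∪ Q.image fun a => σ - a

theorem mem_vx {σ : ℕ} {Q : Finset ℕ} {x : ℕ} : x ∈ vx σ Q ↔ x ∈ Q ∨ ∃ a ∈ Q, σ - a = x := by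
  unfold vx
  rw [mem_union, mem_image]

theorem vx_sub {U : Finset ℕ} {σ : ℕ} {Q : Finset ℕ} (hQ : Q ⊆ pairs U σ) : vx σ Q ⊆ U := by
  intro x hx
  rcases mem_vx.1 hx with h | ⟨a, ha, rfl⟩
  · exact (mem_pairs.1 (hQ h)).1
  · exact (mem_pairs.1 (hQ ha)).2.2

theorem vx_card {U : Finset ℕ} {σ : ℕ} {Q : Finset ℕ} (hQ : Q ⊆ pairs U σ) :
    (vx σ Q).card = 2 * Q.card := by
  unfold vx
  rw [card_union_of_disjoint, card_image_of_injOn]
  · ring
  · intro a ha b hb hab
    have h1 := (mem_pairs.1 (hQ ha)).2.1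
    have h2 := (mem_pairs.1 (hQ hb)).2.1
    simp only at hab
    omega
  · rw [disjoint_left]
    intro x hx hx2
    obtain ⟨a, ha, h⟩ := mem_image.1 hx2
    have h1 := (mem_pairs.1 (hQ ha)).2.1
    have h2 := (mem_pairs.1 (hQ hx)).2.1
    omega

/-- the smaller element of the pair of `x` -/
def fold (σ x : ℕ) : ℕ := min x (σ - x)

theorem fold_mem {U : Finset ℕ} {σ : ℕ} {Q : Finset ℕ} (hQ : Q ⊆ pairs U σ) {x : ℕ}
    (hx : x ∈ vx σ Q) : fold σ x ∈ Q ∧ x ≤ σ ∧ σ - x ∈ U := by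
  unfold fold
  rcases mem_vx.1 hx with h | ⟨a, ha, rfl⟩
  · obtain ⟨h1, h2, h3⟩ := mem_pairs.1 (hQ h)
    rw [min_eq_left (by omega)]
    exact ⟨h, by omega, h3⟩
  · obtain ⟨h1, h2, h3⟩ := mem_pairs.1 (hQ ha)
    have h4 : σ - (σ - a) = a := by omega
    rw [h4, min_eq_right (by omega)]
    exact ⟨ha, by omega, h1⟩

/-- the sums which have at least `g` representations -/
noncomputable def rich (U : Finset ℕ) (N : ℕ) (g : ℝ) : Finset ℕ :=
  (range (2 * N + 1)).filter fun σ => g ≤ (pairs U σ).card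

/-- the weight of the pairs of the sum `σ` -/
noncomputable def cw (U : Finset ℕ) (k σ : ℕ) : ℝ :=
  1 / (((pairs U σ).card - 1).choose (k - 1) : ℕ)

theorem cw_nonneg (U : Finset ℕ) (k σ : ℕ) : 0 ≤ cw U k σ := by
  unfold cw
  positivity

/-- the weighted hypergraph -/
noncomputable def wt (U : Finset ℕ) (N k : ℕ) (g : ℝ) (e : Finset ℕ) : ℝ :=
  ∑ σ ∈ rich U N g, ∑ Q ∈ (pairs U σ).powersetCard k, if e = vx σ Q then cw U k σ else 0

theorem wt_nonneg (U : Finset ℕ) (N k : ℕ) (g : ℝ) (e : Finset ℕ) : 0 ≤ wt U N k g e := by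
  refine sum_nonneg fun σ _ => sum_nonneg fun Q _ => ?_
  split_ifs
  · exact cw_nonneg U k σ
  · exact le_rfl

theorem wt_ne {U : Finset ℕ} {N k : ℕ} {g : ℝ} {e : Finset ℕ} (h : wt U N k g e ≠ 0) :
    ∃ σ Q, Q ⊆ pairs U σ ∧ Q.card = k ∧ e = vx σ Q := by
  unfold wt at h
  obtain ⟨σ, _, h1⟩ := exists_ne_zero_of_sum_ne_zero h
  obtain ⟨Q, hQ, h2⟩ := exists_ne_zero_of_sum_ne_zero h1
  obtain ⟨h3, h4⟩ := mem_powersetCard.1 hQ
  refine ⟨σ, Q, h3, h4, ?_⟩
  by_contra h5
  exact h2 (if_neg h5)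

theorem sum_wt (U : Finset ℕ) (N k : ℕ) (g : ℝ) (f : Finset ℕ → Prop) [DecidablePred f] :
    ∑ e ∈ U.powerset, (if f e then wt U N k g e else 0) =
      ∑ σ ∈ rich U N g, ∑ Q ∈ (pairs U σ).powersetCard k,
        if f (vx σ Q) then cw U k σ else 0 := by
  classical
  unfold wt
  have h1 : ∀ e, (if f e then ∑ σ ∈ rich U N g, ∑ Q ∈ (pairs U σ).powersetCard k,
      (if e = vx σ Q then cw U k σ else 0) else 0) = ∑ σ ∈ rich U N g,
        ∑ Q ∈ (pairs U σ).powersetCard k, if f e ∧ e = vx σ Q then cw U k σ else 0 := by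
    intro e
    by_cases h : f e
    · rw [if_pos h]
      simp only [h, true_and]
    · rw [if_neg h]
      simp only [h, false_and, if_false, sum_const_zero]
  simp_rw [h1]
  rw [sum_comm]
  refine sum_congr rfl fun σ _ => ?_
  rw [sum_comm]
  refine sum_congr rfl fun Q hQ => ?_
  have hQ' := vx_sub (mem_powersetCard.1 hQ).1
  rw [sum_eq_single (vx σ Q)]
  · simp
  · intro e _ he
    rw [if_neg (fun h => he h.2)]
  · intro h
    exact absurd (mem_powerset.2 hQ') h

/-- binomial coefficients -/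
theorem choose_ratio {r k : ℕ} (hkr : k ≤ r) : ∀ i, 1 ≤ i → i ≤ k →
    (r - i).choose (k - i) * r ^ (i - 1) ≤ k ^ (i - 1) * (r - 1).choose (k - 1) := by
  intro i hi
  induction i, hi using Nat.le_induction with
  | base =>
    intro _
    simp
  | succ i hi ih =>
    intro hik
    have h1 := ih (by omega)
    obtain ⟨a, ha⟩ : ∃ a, r - i = a + 1 := ⟨r - i - 1, by omega⟩
    obtain ⟨b, hb⟩ : ∃ b, k - i = b + 1 := ⟨k - i - 1, by omega⟩
    have h2 : r - (i + 1) = a := by omega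
    have h3 : k - (i + 1) = b := by omega
    obtain ⟨j, rfl⟩ : ∃ j, i = j + 1 := ⟨i - 1, by omega⟩
    rw [h2, h3]
    rw [ha, hb] at h1
    simp only [Nat.add_sub_cancel] at h1 ⊢
    have h4 : (a + 1) * a.choose b = (a + 1).choose (b + 1) * (b + 1) :=
      Nat.add_one_mul_choose_eq a b
    have h5 : (b + 1) * r ≤ k * (a + 1) := by
      have h6 : a + 1 = r - (j + 1) := ha.symm
      have h7 : b + 1 = k - (j + 1) := hb.symm
      rw [h6, h7]
      zify [show j + 1 ≤ r by omega, show j + 1 ≤ k by omega]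
      have h8 : (k : ℤ) ≤ r := by exact_mod_cast hkr
      nlinarith
    have h9 : (a.choose b * r ^ (j + 1)) * (a + 1) ≤
        (k ^ (j + 1) * (r - 1).choose (k - 1)) * (a + 1) := by
      calc (a.choose b * r ^ (j + 1)) * (a + 1) = ((a + 1) * a.choose b) * (r ^ j * r) := by
            rw [pow_succ]
            ring
        _ = ((a + 1).choose (b + 1) * r ^ j) * ((b + 1) * r) := by
            rw [h4]
            ring
        _ ≤ (k ^ j * (r - 1).choose (k - 1)) * (k * (a + 1)) := Nat.mul_le_mul h1 h5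
        _ = _ := by
            rw [pow_succ]
            ring
    exact Nat.le_of_mul_le_mul_right h9 (by omega)

/-- the number of `k`-subsets of `P` containing `T`, weighted -/
theorem count_le {U : Finset ℕ} {k σ : ℕ} {g : ℝ} (hk : 1 ≤ k) (hg : (k : ℝ) ≤ g)
    (hσ : g ≤ (pairs U σ).card) {T : Finset ℕ} (hT : T ⊆ pairs U σ) (hT1 : 1 ≤ T.card)
    (hTk : T.card ≤ k) :
    ∑ _Q ∈ ((pairs U σ).powersetCard k).filter (fun Q => T ⊆ Q), cw U k σ ≤
      ((k : ℝ) / g) ^ (T.card - 1) := by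
  classical
  set r := (pairs U σ).card with hr
  have hkr : k ≤ r := by exact_mod_cast hg.trans hσ
  have hk0 : (0 : ℝ) < k := by exact_mod_cast hk
  have hg0 : 0 < g := hk0.trans_le hg
  have hr0 : (0 : ℝ) < r := hg0.trans_le hσ
  have h1 : (((pairs U σ).powersetCard k).filter (fun Q => T ⊆ Q)).card ≤
      (r - T.card).choose (k - T.card) := by
    have h2 : (pairs U σ \ T).card = r - T.card := by
      rw [card_sdiff_of_subset hT]
    rw [← h2, ← card_powersetCard]
    refine card_le_card_of_injOn (fun Q => Q \ T) ?_ ?_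
    · intro Q hQ
      rw [mem_coe, mem_filter, mem_powersetCard] at hQ
      rw [mem_coe, mem_powersetCard]
      refine ⟨sdiff_subset_sdiff hQ.1.1 (Subset.refl T), ?_⟩
      rw [card_sdiff_of_subset hQ.2, hQ.1.2]
    · intro Q hQ Q' hQ' h
      rw [mem_coe, mem_filter] at hQ hQ'
      have h3 := sdiff_union_of_subset hQ.2
      have h4 := sdiff_union_of_subset hQ'.2
      rw [← h3, ← h4]
      simp only at h
      rw [h]
  have h5 : 0 < (r - 1).choose (k - 1) := Nat.choose_pos (by omega)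
  have h6 : (0 : ℝ) < ((r - 1).choose (k - 1) : ℕ) := by exact_mod_cast h5
  rw [sum_const, nsmul_eq_mul]
  unfold cw
  rw [← hr, mul_one_div, div_le_iff₀ h6]
  have h7 := choose_ratio hkr T.card hT1 hTk
  have h8 : (((r - T.card).choose (k - T.card) : ℕ) : ℝ) * (r : ℝ) ^ (T.card - 1) ≤
      (k : ℝ) ^ (T.card - 1) * ((r - 1).choose (k - 1) : ℕ) := by exact_mod_cast h7
  have h9 : (((r - T.card).choose (k - T.card) : ℕ) : ℝ) ≤
      ((k : ℝ) / r) ^ (T.card - 1) * ((r - 1).choose (k - 1) : ℕ) := by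
    rw [div_pow, div_mul_eq_mul_div, le_div_iff₀ (by positivity)]
    exact h8
  calc ((((pairs U σ).powersetCard k).filter (fun Q => T ⊆ Q)).card : ℝ)
      ≤ (((r - T.card).choose (k - T.card) : ℕ) : ℝ) := by exact_mod_cast h1
    _ ≤ ((k : ℝ) / r) ^ (T.card - 1) * ((r - 1).choose (k - 1) : ℕ) := h9
    _ ≤ ((k : ℝ) / g) ^ (T.card - 1) * ((r - 1).choose (k - 1) : ℕ) := by
        refine mul_le_mul_of_nonneg_right ?_ h6.le
        refine pow_le_pow_left₀ (by positivity) ?_ _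
        exact div_le_div_of_nonneg_left hk0.le hg0 hσ

/-- the condition on `τ` for sets which contain a full pair -/
theorem tau_cond {m κ τ : ℝ} {k : ℕ} (hκ0 : 0 < κ) (hκτ : κ ≤ τ) (hm : 1 ≤ m * κ)
    (hb : κ ^ (k - 1) ≤ m * τ ^ (2 * k - 1)) {i : ℕ} (hi : 1 ≤ i) (hik : i ≤ k) :
    κ ^ (i - 1) ≤ m * τ ^ (2 * i - 1) := by
  have hτ0 : 0 < τ := hκ0.trans_le hκτ
  have hm0 : 0 < m := by
    by_contra h
    push Not at h
    nlinarith
  rcases le_total (τ ^ 2) κ with h | h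
  · have h1 : κ ^ (i - 1) * κ ^ (k - i) ≤ (m * τ ^ (2 * i - 1)) * κ ^ (k - i) := by
      calc κ ^ (i - 1) * κ ^ (k - i) = κ ^ (k - 1) := by
            rw [← pow_add]
            congr 1
            omega
        _ ≤ m * τ ^ (2 * k - 1) := hb
        _ = (m * τ ^ (2 * i - 1)) * (τ ^ 2) ^ (k - i) := by
            rw [← pow_mul, mul_assoc, ← pow_add]
            congr 2
            omega
        _ ≤ (m * τ ^ (2 * i - 1)) * κ ^ (k - i) :=
            mul_le_mul_of_nonneg_left (pow_le_pow_left₀ (by positivity) h _) (by positivity)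
    exact le_of_mul_le_mul_right h1 (by positivity)
  · calc κ ^ (i - 1) ≤ (τ ^ 2) ^ (i - 1) := pow_le_pow_left₀ hκ0.le h _
      _ ≤ (m * τ) * (τ ^ 2) ^ (i - 1) := by
          refine le_mul_of_one_le_left (by positivity) ?_
          exact hm.trans (mul_le_mul_of_nonneg_left hκτ hm0.le)
      _ = m * τ ^ (2 * i - 1) := by
          rw [← pow_mul, mul_assoc, ← pow_succ']
          congr 2
          omega

end Pool.Agent.Y940.CT
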