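import Pool.Agent.H38.SP.S8.Y940.CT.Pairs
/-!
# The codegrees of the hypergraph of `k` pairs with the same sum
-/

set_option autoImplicit false

open Finset

namespace Pool.Agent.Y940.CT

open Pool.Agent.Y940.RS (pairs mem_pairs sum_pairs_ge)

theorem inner_total {U : Finset ℕ} {k σ : ℕ} (hk : 1 ≤ k) (hr : k ≤ (pairs U σ).card) :
    ∑ _Q ∈ (pairs U σ).powersetCard k, cw U k σ = (pairs U σ).card / (k : ℝ) := by
  set r := (pairs U σ).card with hr'
  have h5 : 0 < (r - 1).choose (k - 1) := Nat.choose_pos (by omega)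
  have h6 : (0 : ℝ) < ((r - 1).choose (k - 1) : ℕ) := by exact_mod_cast h5
  have hk0 : (0 : ℝ) < k := by exact_mod_cast hk
  rw [sum_const, card_powersetCard, nsmul_eq_mul]
  unfold cw
  rw [← hr', mul_one_div, div_eq_div_iff h6.ne' hk0.ne']
  obtain ⟨a, ha⟩ : ∃ a, r = a + 1 := ⟨r - 1, by omega⟩
  obtain ⟨b, hb⟩ : ∃ b, k = b + 1 := ⟨k - 1, by omega⟩
  rw [ha, hb]
  simp only [Nat.add_sub_cancel]
  have := Nat.add_one_mul_choose_eq a b
  exact_mod_cast this.symm

theorem total_ge {U : Finset ℕ} {N k : ℕ} (hk : 1 ≤ k) (hU : ∀ v ∈ U, v ≤ N)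
    (hm : 2 ≤ U.card) {g : ℝ} (hg : g = (U.card : ℝ) ^ 2 / (8 * (2 * N + 1))) (hkg : (k : ℝ) ≤ g) :
    (U.card : ℝ) * (U.card / (8 * k)) ≤ ∑ e ∈ U.powerset, wt U N k g e := by
  classical
  have hk0 : (0 : ℝ) < k := by exact_mod_cast hk
  have hg0 : 0 < g := hk0.trans_le hkg
  have h1 : ∑ e ∈ U.powerset, wt U N k g e = ∑ σ ∈ rich U N g, (pairs U σ).card / (k : ℝ) := by
    have h2 := sum_wt U N k g (fun _ => True)
    simp only [if_true] at h2
    rw [h2]
    refine sum_congr rfl fun σ hσ => ?_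
    refine inner_total hk ?_
    exact_mod_cast hkg.trans (mem_filter.1 hσ).2
  have h3 := sum_pairs_ge U N hU (fun _ => (1 : ℝ)) (fun _ => zero_le_one) (fun _ => le_rfl)
  simp only [sum_const, nsmul_eq_mul, mul_one] at h3
  have h4 := sum_filter_add_sum_filter_not (range (2 * N + 1))
    (fun σ => g ≤ ((pairs U σ).card : ℝ)) (fun σ => ((pairs U σ).card : ℝ))
  have h5 : ∑ σ ∈ (range (2 * N + 1)).filter (fun σ => ¬ g ≤ ((pairs U σ).card : ℝ)),
      ((pairs U σ).card : ℝ) ≤ (U.card : ℝ) ^ 2 / 8 := by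
    calc ∑ σ ∈ (range (2 * N + 1)).filter (fun σ => ¬ g ≤ ((pairs U σ).card : ℝ)),
          ((pairs U σ).card : ℝ)
        ≤ ∑ σ ∈ (range (2 * N + 1)).filter (fun σ => ¬ g ≤ ((pairs U σ).card : ℝ)), g :=
          sum_le_sum fun σ hσ => (not_le.1 (mem_filter.1 hσ).2).le
      _ ≤ ∑ σ ∈ range (2 * N + 1), g :=
          sum_le_sum_of_subset_of_nonneg (filter_subset _ _) fun _ _ _ => hg0.le
      _ = (U.card : ℝ) ^ 2 / 8 := by
          rw [sum_const, card_range, nsmul_eq_mul, hg]
          push_cast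
          field_simp
  have hm' : (2 : ℝ) ≤ U.card := by exact_mod_cast hm
  have h6 : (U.card : ℝ) ^ 2 / 8 ≤ ∑ σ ∈ rich U N g, ((pairs U σ).card : ℝ) := by
    have h7 : ∑ σ ∈ rich U N g, ((pairs U σ).card : ℝ) =
        ∑ σ ∈ (range (2 * N + 1)).filter (fun σ => g ≤ ((pairs U σ).card : ℝ)),
          ((pairs U σ).card : ℝ) := rfl
    rw [h7]
    nlinarith
  rw [h1, ← sum_div, le_div_iff₀ hk0]
  refine le_trans (le_of_eq ?_) h6
  field_simp

theorem spread_pairs {U : Finset ℕ} {N k : ℕ} (hk : 1 ≤ k) (hU : ∀ v ∈ U, v ≤ N)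
    (hm : 2 ≤ U.card) {g κ τ : ℝ} (hg : g = (U.card : ℝ) ^ 2 / (8 * (2 * N + 1)))
    (hkg : (k : ℝ) ≤ g) (hκ : κ = k / g) (hκτ : κ ≤ τ) (hτ1 : τ ≤ 1)
    (hmκ : 1 ≤ (U.card : ℝ) * κ) (hb : κ ^ (k - 1) ≤ (U.card : ℝ) * τ ^ (2 * k - 1)) :
    Spread U (2 * k) (wt U N k g) (U.card / (8 * k)) (8 * k * (1 + 4 * (k : ℝ) ^ 2)) τ := by
  classical
  have hk0 : (0 : ℝ) < k := by exact_mod_cast hk
  have hg0 : 0 < g := hk0.trans_le hkg
  have hκ0 : 0 < κ := by
    rw [hκ]
    positivity
  have hτ0 : 0 < τ := hκ0.trans_le hκτ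
  refine ⟨wt_nonneg U N k g, ?_, total_ge hk hU hm hg hkg, ?_⟩
  · intro e he
    obtain ⟨σ, Q, h1, h2, h3⟩ := wt_ne he
    rw [h3]
    exact ⟨vx_sub h1, by rw [vx_card h1, h2]⟩
  intro J hJ
  obtain ⟨x₀, hx₀⟩ := hJ
  have hj1 : 1 ≤ J.card := card_pos.2 ⟨x₀, hx₀⟩
  have hdeg : deg U (wt U N k g) J = ∑ σ ∈ rich U N g, ∑ Q ∈ (pairs U σ).powersetCard k,
      if J ⊆ vx σ Q then cw U k σ else 0 := sum_wt U N k g (fun e => J ⊆ e)
  set m : ℝ := (U.card : ℝ) with hm'
  have hm0 : 0 < m := by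
    have : (2 : ℝ) ≤ (U.card : ℝ) := by exact_mod_cast hm
    linarith
  by_cases hj : J.card ≤ 2 * k
  · set I1 : Finset ℕ := U.image fun y => x₀ + y with hI1
    set I2 : Finset ℕ := (J ×ˢ J).image fun z => z.1 + z.2 with hI2
    have hclaim : ∀ σ ∈ rich U N g, (∑ Q ∈ (pairs U σ).powersetCard k,
        if J ⊆ vx σ Q then cw U k σ else 0) ≤ (if σ ∈ I1 then τ ^ (J.card - 1) else 0) +
          (if σ ∈ I2 then m * τ ^ (J.card - 1) else 0) := by
      intro σ hσ
      have hnn1 : 0 ≤ (if σ ∈ I1 then τ ^ (J.card - 1) else 0) := by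
        split_ifs <;> positivity
      have hnn2 : 0 ≤ (if σ ∈ I2 then m * τ ^ (J.card - 1) else 0) := by
        split_ifs <;> positivity
      by_cases hex : ∃ Q ∈ (pairs U σ).powersetCard k, J ⊆ vx σ Q
      · obtain ⟨Q₀, hQ₀, hJQ⟩ := hex
        obtain ⟨hQ1, hQ2⟩ := mem_powersetCard.1 hQ₀
        set T : Finset ℕ := J.image (fold σ) with hT
        have hTQ : ∀ Q ∈ (pairs U σ).powersetCard k, J ⊆ vx σ Q → T ⊆ Q := by
          intro Q hQ hJQ x hx
          obtain ⟨y, hy, rfl⟩ := mem_image.1 hx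
          exact (fold_mem (mem_powersetCard.1 hQ).1 (hJQ hy)).1
        have hTP : T ⊆ pairs U σ := (hTQ Q₀ hQ₀ hJQ).trans hQ1
        have hT1 : 1 ≤ T.card := card_pos.2 ⟨fold σ x₀, mem_image_of_mem _ hx₀⟩
        have hTk : T.card ≤ k := by
          rw [← hQ2]
          exact card_le_card (hTQ Q₀ hQ₀ hJQ)
        have hS : (∑ Q ∈ (pairs U σ).powersetCard k, if J ⊆ vx σ Q then cw U k σ else 0) ≤
            κ ^ (T.card - 1) := by
          rw [← sum_filter]
          refine le_trans ?_ ((count_le hk hkg (mem_filter.1 hσ).2 hTP hT1 hTk).trans_eq ?_)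
          · refine sum_le_sum_of_subset_of_nonneg ?_ fun _ _ _ => cw_nonneg U k σ
            intro Q hQ
            rw [mem_filter] at hQ ⊢
            exact ⟨hQ.1, hTQ Q hQ.1 hQ.2⟩
          · rw [hκ]
        have hσ1 : σ ∈ I1 := by
          obtain ⟨_, h1, h2⟩ := fold_mem hQ1 (hJQ hx₀)
          rw [hI1, mem_image]
          exact ⟨σ - x₀, h2, by omega⟩
        rw [if_pos hσ1]
        by_cases hTJ : T.card = J.card
        · have h3 : κ ^ (T.card - 1) ≤ τ ^ (J.card - 1) := by
            rw [hTJ]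
            exact pow_le_pow_left₀ hκ0.le hκτ _
          linarith
        · have hσ2 : σ ∈ I2 := by
            have h4 : ¬ Set.InjOn (fold σ) J := fun h => hTJ (card_image_of_injOn h)
            unfold Set.InjOn at h4
            push Not at h4
            obtain ⟨x, hx, y, hy, hxy, hne⟩ := h4
            rw [mem_coe] at hx hy
            have h5 := (fold_mem hQ1 (hJQ hx)).2.1
            have h6 := (fold_mem hQ1 (hJQ hy)).2.1
            rw [hI2, mem_image]
            refine ⟨(x, y), mem_product.2 ⟨hx, hy⟩, ?_⟩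
            unfold fold at hxy
            simp only
            omega
          rw [if_pos hσ2]
          have hJT : J.card ≤ 2 * T.card := by
            rw [hT]
            refine card_le_mul_card_image J 2 ?_
            intro a _
            have h7 : J.filter (fun x => fold σ x = a) ⊆ {a, σ - a} := by
              intro x hx
              rw [mem_filter] at hx
              have h8 := (fold_mem hQ1 (hJQ hx.1)).2.1
              have h9 := hx.2
              unfold fold at h9
              rw [mem_insert, mem_singleton]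
              omega
            exact (card_le_card h7).trans card_le_two
          have h10 := tau_cond hκ0 hκτ hmκ hb hT1 hTk
          have h11 : m * τ ^ (2 * T.card - 1) ≤ m * τ ^ (J.card - 1) := by
            refine mul_le_mul_of_nonneg_left ?_ hm0.le
            exact pow_le_pow_of_le_one hτ0.le hτ1 (by omega)
          have h12 : 0 ≤ τ ^ (J.card - 1) := by positivity
          linarith
      · push Not at hex
        have h0 : (∑ Q ∈ (pairs U σ).powersetCard k, if J ⊆ vx σ Q then cw U k σ else 0) = 0 :=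
          sum_eq_zero fun Q hQ => if_neg (hex Q hQ)
        rw [h0]
        linarith
    have hsum : deg U (wt U N k g) J ≤ (1 + 4 * (k : ℝ) ^ 2) * m * τ ^ (J.card - 1) := by
      rw [hdeg]
      refine (sum_le_sum hclaim).trans ?_
      rw [sum_add_distrib]
      have hc1 : ∑ σ ∈ rich U N g, (if σ ∈ I1 then τ ^ (J.card - 1) else 0) ≤
          m * τ ^ (J.card - 1) := by
        rw [← sum_filter, sum_const, nsmul_eq_mul]
        refine mul_le_mul_of_nonneg_right ?_ (by positivity)
        have h1 : ((rich U N g).filter (fun σ => σ ∈ I1)).card ≤ I1.card :=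
          card_le_card fun x hx => (mem_filter.1 hx).2
        have h2 : I1.card ≤ U.card := card_image_le
        rw [hm']
        exact_mod_cast h1.trans h2
      have hc2 : ∑ σ ∈ rich U N g, (if σ ∈ I2 then m * τ ^ (J.card - 1) else 0) ≤
          (4 * (k : ℝ) ^ 2) * (m * τ ^ (J.card - 1)) := by
        rw [← sum_filter, sum_const, nsmul_eq_mul]
        refine mul_le_mul_of_nonneg_right ?_ (by positivity)
        have h1 : ((rich U N g).filter (fun σ => σ ∈ I2)).card ≤ I2.card :=
          card_le_card fun x hx => (mem_filter.1 hx).2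
        have h2 : I2.card ≤ J.card * J.card := by
          rw [← card_product]
          exact card_image_le
        have h3 : J.card * J.card ≤ (2 * k) * (2 * k) := Nat.mul_le_mul hj hj
        have h4 : (((rich U N g).filter (fun σ => σ ∈ I2)).card : ℝ) ≤ ((2 * k) * (2 * k) : ℕ) := by
          exact_mod_cast h1.trans (h2.trans h3)
        refine h4.trans (le_of_eq ?_)
        push_cast
        ring
      linarith
    calc deg U (wt U N k g) J * τ ≤ ((1 + 4 * (k : ℝ) ^ 2) * m * τ ^ (J.card - 1)) * τ :=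
          mul_le_mul_of_nonneg_right hsum hτ0.le
      _ = (1 + 4 * (k : ℝ) ^ 2) * m * τ ^ J.card := by
          obtain ⟨j, hj⟩ : ∃ j, J.card = j + 1 := ⟨J.card - 1, by omega⟩
          rw [hj, Nat.add_sub_cancel, pow_succ]
          ring
      _ = 8 * k * (1 + 4 * (k : ℝ) ^ 2) * (m / (8 * k)) * τ ^ J.card := by
          field_simp
  · have h0 : deg U (wt U N k g) J = 0 := by
      rw [hdeg]
      refine sum_eq_zero fun σ _ => sum_eq_zero fun Q hQ => if_neg fun h => hj ?_
      obtain ⟨hQ1, hQ2⟩ := mem_powersetCard.1 hQ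
      have := card_le_card h
      rwa [vx_card hQ1, hQ2] at this
    rw [h0, zero_mul]
    positivity

/-- sets without `k` pairs of the same sum are independent -/
theorem ind_of_free {U I : Finset ℕ} {N k : ℕ} {g : ℝ} (hI : ∀ σ, (pairs I σ).card < k) :
    Ind (wt U N k g) I := by
  intro e he
  by_contra h
  obtain ⟨σ, Q, h1, h2, h3⟩ := wt_ne h
  have h4 : Q ⊆ pairs I σ := by
    intro a ha
    have h5 := (mem_pairs.1 (h1 ha)).2.1
    rw [mem_pairs]
    refine ⟨he ?_, h5, he ?_⟩
    · rw [h3, mem_vx]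
      exact Or.inl ha
    · rw [h3, mem_vx]
      exact Or.inr ⟨a, ha, rfl⟩
  have h6 := card_le_card h4
  have h7 := hI σ
  omega

end Pool.Agent.Y940.CT
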